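import Pool.Agent.K1H62.ND.Nondeg
import Pool.Agent.K1H62.ND.Frame

open Pool.Agent.K1H62.ND Real

namespace Pool.Agent.Results.MP_f07be6_gt.FrameLength

/-- **Q2: the inequality `L(E) > 2π μ(n)` holds.** For every `n ≥ 4` and every nondegenerate smooth
closed curve `γ` in `ℝ^n` the length `L(E) = ∫ (κ_1² + ⋯ + κ_{n-1}²)^{1/2} ds` of its Frenet frame
satisfies `L(E) > 2π μ(n)`.

Here `μ(n) = 1` (the other hand-in of this problem), and the tangent indicatrix `e_1` has length at
least `2π` by Fenchel's theorem, which is proved here; the frame is strictly longer than `e_1` because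
`κ_2` has no zero. -/
theorem result (n : ℕ) (hn : 4 ≤ n) (γ : ℝ → EuclideanSpace ℝ (Fin n)) (hγ : IsClosedCurve n γ)
    (hnd : Nondegenerate n γ) : 2 * π * mu n < frameLength n γ := by
  have h1 : mu n = 1 := by
    have hl : IsLeast {m : ℕ | 1 ≤ m ∧ Perturbable n m} 1 :=
      ⟨⟨le_rfl, perturbable_one n hn⟩, fun _ hm => hm.1⟩
    exact hl.csInf_eq
  rw [h1]
  have := frameLength_gt (by omega) hγ hnd
  simpa using this

end Pool.Agent.Results.MP_f07be6_gt.FrameLength
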