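import Pool.Agent.K1H62.ND.Nondeg

open Pool.Agent.K1H62.ND

namespace Pool.Agent.Results.MP_f07be6_gt.OnceIsEnough

/-- **Q1: `μ(n) = 1` for every `n ≥ 4`.** For every `n ≥ 4` the least `m ≥ 1` such that every
`C^∞`-neighbourhood of the `m` times traversed plane unit circle `c_m` in the space of smooth closed
curves in `ℝ^n` contains a nondegenerate closed curve is `1`: already the circle traversed once can be
perturbed, by arbitrarily `C^∞`-small perturbations, to a nondegenerate curve.

For `n = 2J` the perturbed curves are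
`(cos t, sin t, δ cos 2t, δ sin 2t, …, δ cos Jt, δ sin Jt)`. For `n = 2J + 3`, `J ≥ 1`, one adds to the
modes `1, …, J` a triple of functions with modes `q, 2q, 3q`, `q = J + 1`, chosen such that the
operator `D (D² + 1) ⋯ (D² + J²)` sends it to
`(4 cos qt - cos 3qt, 2 sin qt - sin 3qt, cos 2qt)`, a closed curve in `ℝ³` whose Wronskian has no
zero although all its components have mean value zero. -/
theorem result (n : ℕ) (hn : 4 ≤ n) : IsLeast {m : ℕ | 1 ≤ m ∧ Perturbable n m} 1 :=
  ⟨⟨le_rfl, perturbable_one n hn⟩, fun _ hm => hm.1⟩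

end Pool.Agent.Results.MP_f07be6_gt.OnceIsEnough
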